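import Pool.Agent.MP_5f72fe_nt.H3.SpecC

/-! The Fourier expansion of the sum over quadratic forms with fixed first coefficient. -/

namespace Pool.Agent.MP_5f72fe_nt.H4

open Complex Filter Topology
open scoped Real
open Pool.Agent.MP_5f72fe_nt.H3

noncomputable section

theorem E_zero (hJ : RowJH) : E 0 = 1 := by simpa using hJ.int 0

theorem lipN (hJ : RowJH) (hL : RowLIP) (j : ℕ) (hj : 1 ≤ j) (τ : ℂ) (hτ : 0 < τ.im) :
    HasSum (fun m : ℕ => cL (j + 1 : ℕ) * (m : ℂ) ^ j * E (m * τ))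
      (∑' l : ℤ, 1 / (τ + l) ^ (j + 1)) := by
  have h := hL.sum ((j + 1 : ℕ) : ℝ) 0 τ (by exact_mod_cast Nat.succ_le_succ hj) hτ
  have h1 : (∑' l : ℤ, E (-(((0 : ℝ) : ℂ) * l)) * (τ + l) ^ (-(((j + 1 : ℕ) : ℝ) : ℂ))) =
      ∑' l : ℤ, 1 / (τ + l) ^ (j + 1) := by
    refine tsum_congr fun l => ?_
    rw [ofReal_zero, zero_mul, neg_zero, E_zero hJ, one_mul, ofReal_natCast, cpow_neg,
      cpow_natCast, one_div]
  rw [h1] at h
  have h2 := (Function.Injective.hasSum_iff (g := fun m : ℕ => (m : ℤ)) Nat.cast_injective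
    (by
      intro x hx
      have hx' : ¬ (0 : ℝ) < (x : ℝ) + 0 := by
        intro h0
        rw [add_zero] at h0
        have h3 : 0 < x := by exact_mod_cast h0
        exact hx ⟨x.toNat, Int.toNat_of_nonneg h3.le⟩
      exact if_neg hx')).2 h
  refine h2.congr_fun fun m => ?_
  have h3 : ((j + 1 : ℕ) : ℝ) - 1 = (j : ℝ) := by push_cast; ring
  simp only [Function.comp, Int.cast_natCast, add_zero, ofReal_zero, h3, Real.rpow_natCast]
  split_ifs with h0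
  · push_cast; rfl
  · have h4 : m = 0 := by
      by_contra h5
      exact h0 (by exact_mod_cast Nat.pos_of_ne_zero h5)
    rw [h4, Nat.cast_zero, zero_pow (by omega), mul_zero, zero_mul]

theorem absN (hL : RowLIP) (j : ℕ) (hj : 2 ≤ j) (τ : ℂ) (hτ : 0 < τ.im) :
    Summable fun l : ℤ => 1 / ‖τ + l‖ ^ j := by
  refine (hL.abs (j : ℝ) τ (by exact_mod_cast hj) hτ).1.congr fun l => ?_
  rw [Real.rpow_neg (norm_nonneg _), Real.rpow_natCast, one_div]

theorem boundN (hJ : RowJH) (hL : RowLIP) (j : ℕ) (hj : 1 ≤ j) (τ : ℂ) (hτ : 0 < τ.im) (m : ℕ) :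
    ‖cL (j + 1 : ℕ) * (m : ℂ) ^ j * E (m * τ)‖ ≤
      2 * π * (2 / τ.im) ^ j * Real.exp (-(π * τ.im)) ^ m := by
  rcases Nat.eq_zero_or_pos m with rfl | hm
  · rw [Nat.cast_zero, zero_pow (by omega), mul_zero, zero_mul, norm_zero]
    positivity
  have h := hL.bound ((j + 1 : ℕ) : ℝ) m τ.im (by exact_mod_cast Nat.le_add_left 1 j)
    (by exact_mod_cast hm) hτ
  have h3 : ((j + 1 : ℕ) : ℝ) - 1 = (j : ℝ) := by push_cast; ring
  rw [h3, Real.rpow_natCast, Real.rpow_natCast] at h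
  rw [norm_mul, norm_mul, norm_pow, norm_natCast, hJ.norm, ← Real.exp_nat_mul]
  have h4 : ((m : ℂ) * τ).im = m * τ.im := by simp
  rw [h4]
  have h5 : -(2 * π * (m * τ.im)) = -(2 * π * m * τ.im) := by ring
  have h6 : m * -(π * τ.im) = -(π * m * τ.im) := by ring
  rw [h5, h6]
  exact h

theorem dupl (s : ℕ) : Real.Gamma (s + 1 + 1 / 2) * s.factorial * 4 ^ (s + 1) =
    2 * √π * (2 * s + 1).factorial := by
  have h := Real.Gamma_mul_Gamma_add_half ((s : ℝ) + 1)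
  have h1 : (2 : ℝ) * (s + 1) = ((2 * s + 1 : ℕ) : ℝ) + 1 := by push_cast; ring
  have h2 : (1 : ℝ) - (((2 * s + 1 : ℕ) : ℝ) + 1) = -((2 * s + 1 : ℕ) : ℝ) := by ring
  rw [h1, Real.Gamma_nat_eq_factorial, Real.Gamma_nat_eq_factorial, h2,
    Real.rpow_neg (by norm_num), Real.rpow_natCast] at h
  have h3 : (4 : ℝ) ^ (s + 1) = 2 * 2 ^ (2 * s + 1) := by
    rw [show (4 : ℝ) = 2 ^ 2 by norm_num, ← pow_mul]; ring
  rw [mul_comm (Real.Gamma _), h, h3]
  field_simp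

/-- the terms of the double series -/
def G (k : ℕ) (β : ℝ) (w : ℂ) (i m : ℕ) : ℂ :=
  ((i + k).choose k * β ^ i : ℝ) *
    (cL (2 * (k + i) + 1 + 1 : ℕ) * (m : ℂ) ^ (2 * (k + i) + 1) * E (m * w))

/-- the coefficients -/
def cc (k : ℕ) (β : ℝ) (m : ℕ) : ℂ :=
  (m : ℂ) ^ (2 * (k + 1) - 1) * cA (k + 1) * Jb (k + 1) (β * m ^ 2 / 4)

theorem coef (hL : RowLIP) (k : ℕ) (β : ℝ) (w : ℂ) (i m : ℕ) :
    G k β w i m = (m : ℂ) ^ (2 * (k + 1) - 1) * cA (k + 1) * E (m * w) *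
      (((-(4 * π ^ 2 * (β * m ^ 2 / 4))) ^ i /
        (i.factorial * Real.Gamma (((k + 1 : ℕ) : ℝ) + 1 / 2 + i)) : ℝ) : ℂ) := by
  have hd := dupl (k + i)
  have h1 : (((k + i : ℕ) : ℝ) + 1 + 1 / 2) = ((k + 1 : ℕ) : ℝ) + 1 / 2 + i := by push_cast; ring
  rw [h1] at hd
  have hΓ : 0 < Real.Gamma (((k + 1 : ℕ) : ℝ) + 1 / 2 + i) := Real.Gamma_pos_of_pos (by positivity)
  generalize Real.Gamma (((k + 1 : ℕ) : ℝ) + 1 / 2 + i) = Γ at hd hΓ
  have hch : (((i + k).choose k : ℕ) : ℝ) = (k + i).factorial / (i.factorial * k.factorial) := by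
    rw [eq_div_iff (by positivity), ← mul_assoc, add_comm k i]
    exact_mod_cast Nat.add_choose_mul_factorial_mul_factorial i k
  have hs : (√π : ℝ) = Γ * (k + i).factorial * 4 ^ (k + i + 1) / (2 * (2 * (k + i) + 1).factorial) := by
    rw [eq_div_iff (by positivity), hd]; ring
  unfold G cA
  rw [hL.nat, hch, hs, show 2 * (k + 1) - 1 = 2 * k + 1 by omega, Nat.add_sub_cancel]
  have hI : (-2 * (π : ℂ) * I) ^ (2 * (k + i) + 1 + 1) =
      (-2 * π * I) ^ (2 * (k + 1)) * (-(4 * π ^ 2)) ^ i := by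
    rw [show 2 * (k + i) + 1 + 1 = 2 * (k + 1) + 2 * i by ring, pow_add, pow_mul _ 2 i]
    congr 2
    linear_combination (4 * (π : ℂ) ^ 2) * I_sq
  have h4 : (-(4 * π ^ 2 * (β * m ^ 2 / 4))) ^ i =
      (-(4 * π ^ 2)) ^ i * β ^ i * (m : ℝ) ^ (2 * i) / 4 ^ i := by
    rw [pow_mul, ← mul_pow, ← mul_pow, ← div_pow]
    congr 1
    ring
  rw [hI, h4]
  have e1 : ((i.factorial : ℕ) : ℂ) ≠ 0 := by exact_mod_cast i.factorial_ne_zero
  have e2 : ((k.factorial : ℕ) : ℂ) ≠ 0 := by exact_mod_cast k.factorial_ne_zero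
  have e3 : (((2 * (k + i) + 1).factorial : ℕ) : ℂ) ≠ 0 := by
    exact_mod_cast (2 * (k + i) + 1).factorial_ne_zero
  have e4 : (Γ : ℂ) ≠ 0 := by exact_mod_cast hΓ.ne'
  push_cast
  field_simp
  ring

theorem sumG (hL : RowLIP) (k : ℕ) (β : ℝ) (w : ℂ) (m : ℕ) :
    ∑' i, G k β w i m = cc k β m * E (m * w) := by
  simp_rw [coef hL]
  rw [tsum_mul_left, ← ofReal_tsum, cc, Jb]
  ring

theorem normG (hJ : RowJH) (hL : RowLIP) (k : ℕ) {β ρ : ℝ} (hβ : 0 ≤ β) {w : ℂ} (hw : 0 < w.im)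
    (hρ : 4 * β / w.im ^ 2 ≤ ρ) (i m : ℕ) :
    ‖G k β w i m‖ ≤ ((i + k).choose k * ρ ^ i) *
      (2 * π * (2 / w.im) ^ (2 * k + 1) * Real.exp (-(π * w.im)) ^ m) := by
  unfold G
  rw [norm_mul, norm_real, Real.norm_of_nonneg (by positivity)]
  refine (mul_le_mul_of_nonneg_left (boundN hJ hL _ (by omega) w hw m) (by positivity)).trans ?_
  have h1 : β ^ i * (2 / w.im) ^ (2 * (k + i) + 1) =
      (4 * β / w.im ^ 2) ^ i * (2 / w.im) ^ (2 * k + 1) := by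
    rw [show 2 * (k + i) + 1 = 2 * i + (2 * k + 1) by ring, pow_add, pow_mul, ← mul_assoc,
      ← mul_pow]
    congr 2
    field_simp
    norm_num
  have h2 : (4 * β / w.im ^ 2) ^ i ≤ ρ ^ i := pow_le_pow_left₀ (by positivity) hρ i
  calc ((i + k).choose k * β ^ i : ℝ) *
        (2 * π * (2 / w.im) ^ (2 * (k + i) + 1) * Real.exp (-(π * w.im)) ^ m)
      = (i + k).choose k * (β ^ i * (2 / w.im) ^ (2 * (k + i) + 1)) *
        (2 * π * Real.exp (-(π * w.im)) ^ m) := by ring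
    _ = (i + k).choose k * (4 * β / w.im ^ 2) ^ i *
        (2 * π * (2 / w.im) ^ (2 * k + 1) * Real.exp (-(π * w.im)) ^ m) := by rw [h1]; ring
    _ ≤ _ := by gcongr

theorem norm_cc (hJ : RowJH) (hL : RowLIP) (k : ℕ) {β ρ : ℝ} (hβ : 0 ≤ β) {w : ℂ} (hw : 0 < w.im)
    (hρ : 4 * β / w.im ^ 2 ≤ ρ) (hρ1 : ρ < 1) (m : ℕ) :
    ‖cc k β m * E (m * w)‖ ≤ 1 / (1 - ρ) ^ (k + 1) *
      (2 * π * (2 / w.im) ^ (2 * k + 1) * Real.exp (-(π * w.im)) ^ m) := by
  have hρ0 : 0 ≤ ρ := le_trans (by positivity) hρ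
  have h1 : HasSum (fun i : ℕ => ((i + k).choose k * ρ ^ i : ℝ)) (1 / (1 - ρ) ^ (k + 1)) :=
    hasSum_choose_mul_geometric_of_norm_lt_one k (by rwa [Real.norm_of_nonneg hρ0])
  have h2 := h1.mul_right (2 * π * (2 / w.im) ^ (2 * k + 1) * Real.exp (-(π * w.im)) ^ m)
  rw [← sumG hL]
  exact tsum_of_norm_bounded h2 fun i => normG hJ hL k hβ hw hρ i m

theorem exp_lt {y : ℝ} (hy : 0 < y) : Real.exp (-(π * y)) < 1 :=
  Real.exp_lt_one_iff.2 (neg_lt_zero.2 (by positivity))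

theorem summable_cc (hJ : RowJH) (hL : RowLIP) (k : ℕ) {β : ℝ} (hβ : 0 ≤ β) {w : ℂ}
    (hw : 0 < w.im) (hρ : 4 * β / w.im ^ 2 < 1) : Summable fun m : ℕ => cc k β m * E (m * w) :=
  Summable.of_norm_bounded
    (((summable_geometric_of_lt_one (Real.exp_pos _).le (exp_lt hw)).mul_left _).mul_left _)
    (norm_cc hJ hL k hβ hw le_rfl hρ)

theorem core (hJ : RowJH) (hL : RowLIP) (k : ℕ) {β : ℝ} (hβ : 0 ≤ β) {w : ℂ} (hw : 0 < w.im)
    (hρ : 4 * β / w.im ^ 2 < 1) :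
    ∑' l : ℤ, 1 / ((w + l) ^ 2 - β) ^ (k + 1) = ∑' m : ℕ, cc k β m * E (m * w) := by
  set ρ := 4 * β / w.im ^ 2 with hρd
  have hρ0 : 0 ≤ ρ := by positivity
  have hs : Summable fun i : ℕ => ((i + k).choose k * ρ ^ i : ℝ) :=
    (hasSum_choose_mul_geometric_of_norm_lt_one k (by rwa [Real.norm_of_nonneg hρ0])).summable
  have hy : ∀ l : ℤ, w.im ≤ ‖w + l‖ := fun l => by
    have := Complex.im_le_norm (w + l)
    simpa using this
  have hq : ∀ l : ℤ, β / ‖w + l‖ ^ 2 ≤ ρ := fun l => by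
    have h1 : β / ‖w + l‖ ^ 2 ≤ β / w.im ^ 2 := by
      have := hy l
      gcongr
    have h2 : 0 ≤ β / w.im ^ 2 := by positivity
    rw [hρd, mul_div_assoc]
    linarith
  let F : ℕ → ℤ → ℂ := fun i l =>
    ((i + k).choose k * β ^ i : ℝ) * (1 / (w + l) ^ (2 * (k + i) + 1 + 1))
  have hF : ∀ l : ℤ, ∑' i, F i l = 1 / ((w + l) ^ 2 - β) ^ (k + 1) := by
    intro l
    have h0 : w + l ≠ 0 := norm_pos_iff.1 (hw.trans_le (hy l))
    have h1 : ‖(β : ℂ) / (w + l) ^ 2‖ < 1 := by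
      rw [norm_div, norm_pow, norm_real, Real.norm_of_nonneg hβ]
      exact (hq l).trans_lt hρ
    have h2 := (hasSum_choose_mul_geometric_of_norm_lt_one k h1).mul_right
      (1 / (w + l) ^ (2 * (k + 1)))
    have h3 : 1 / (1 - (β : ℂ) / (w + l) ^ 2) ^ (k + 1) * (1 / (w + l) ^ (2 * (k + 1))) =
        1 / ((w + l) ^ 2 - β) ^ (k + 1) := by
      rw [div_mul_div_comm, one_mul, pow_mul, ← mul_pow]
      congr 2
      field_simp
    rw [← h3, ← h2.tsum_eq]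
    refine tsum_congr fun i => ?_
    simp only [F]
    rw [show 2 * (k + i) + 1 + 1 = 2 * i + 2 * (k + 1) by ring, pow_add, div_pow, ← pow_mul]
    push_cast
    field_simp
  have hFs : Summable (Function.uncurry F) := by
    refine Summable.of_norm_bounded (hs.mul_of_nonneg (absN hL (2 * (k + 1)) (by omega) w hw)
      (fun i => by positivity) (fun l => by positivity)) ?_
    rintro ⟨i, l⟩
    have h0 : 0 < ‖w + l‖ := hw.trans_le (hy l)
    simp only [Function.uncurry, F]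
    rw [norm_mul, norm_real, Real.norm_of_nonneg (by positivity), norm_div, norm_one, norm_pow,
      show 2 * (k + i) + 1 + 1 = 2 * i + 2 * (k + 1) by ring, pow_add, pow_mul]
    have h2 : (β / ‖w + l‖ ^ 2) ^ i ≤ ρ ^ i := pow_le_pow_left₀ (by positivity) (hq l) i
    calc ((i + k).choose k * β ^ i : ℝ) * (1 / ((‖w + l‖ ^ 2) ^ i * ‖w + l‖ ^ (2 * (k + 1))))
        = (i + k).choose k * (β / ‖w + l‖ ^ 2) ^ i * (1 / ‖w + l‖ ^ (2 * (k + 1))) := by
          rw [div_pow]; field_simp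
      _ ≤ _ := by gcongr
  have hGs : Summable (Function.uncurry (G k β w)) := by
    refine Summable.of_norm_bounded (hs.mul_of_nonneg
      ((summable_geometric_of_lt_one (Real.exp_pos _).le (exp_lt hw)).mul_left
        (2 * π * (2 / w.im) ^ (2 * k + 1)))
      (fun i => by positivity) (fun l => by positivity)) ?_
    rintro ⟨i, m⟩
    exact normG hJ hL k hβ hw le_rfl i m
  simp_rw [← hF, ← sumG hL]
  rw [hFs.tsum_comm, hGs.tsum_comm]
  refine tsum_congr fun i => ?_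
  simp only [F, G]
  rw [tsum_mul_left, tsum_mul_left, (lipN hJ hL _ (by omega) w hw).tsum_eq]

/-- the weights -/
def ep (N a n b : ℕ) : ℂ :=
  if (4 * a : ℤ) ∣ b ^ 2 - N * n then (chi N a b ((b ^ 2 - N * n) / (4 * a)) : ℂ) else 0

theorem norm_ep (hC : RowCHI) (N a n b : ℕ) : ‖ep N a n b‖ ≤ 1 := by
  unfold ep
  split_ifs
  · rw [norm_intCast]
    exact_mod_cast hC.abs _ _ _ _
  · simp

theorem Sa_eq (N a m n : ℕ) :
    Sa N a m n = ∑ b ∈ Finset.range (2 * a), ep N a n b * E (m * b / (2 * a)) := by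
  unfold Sa ep
  refine Finset.sum_congr rfl fun b _ => ?_
  split_ifs <;> simp

theorem norm_Sa (hJ : RowJH) (hC : RowCHI) (N a m n : ℕ) : ‖Sa N a m n‖ ≤ 2 * a := by
  rw [Sa_eq]
  refine (norm_sum_le _ _).trans ?_
  refine (Finset.sum_le_card_nsmul _ _ 1 fun b _ => ?_).trans (by simp)
  have h1 : ((m : ℂ) * b / (2 * a)).im = 0 := by
    have : (m : ℂ) * b / (2 * a) = ((m * b / (2 * a) : ℝ) : ℂ) := by push_cast; ring
    rw [this, ofReal_im]
  rw [norm_mul, hJ.norm, h1]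
  simpa using norm_ep hC N a n b

theorem term_eq (N k a m n : ℕ) (ha : 1 ≤ a) (z : ℂ) :
    (m : ℂ) ^ (2 * (k + 1) - 1) * cA (k + 1) * St N (k + 1) a m n * E (m * z) =
      Sa N a m n / a ^ (k + 1) * (cc k (N * n / (4 * a ^ 2)) m * E (m * z)) := by
  have h1 : (N * n * m ^ 2 / (16 * a ^ 2) : ℝ) = N * n / (4 * a ^ 2) * m ^ 2 / 4 := by
    have : (0 : ℝ) < a := by exact_mod_cast ha
    field_simp
    norm_num
  unfold St cc
  rw [h1]
  ring

theorem Qt_eq (hC : RowCHI) (N k a n : ℕ) (hN : Odd N) (ha : 1 ≤ a) (z : ℂ) (b : ℕ) (l : ℤ) :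
    Qt N k n z (a, (b + 2 * a * l, ((b + 2 * a * l) ^ 2 - N * n) / (4 * a))) =
      ep N a n b / a ^ k *
        (1 / ((z + b / (2 * a) + l) ^ 2 - ((N * n / (4 * a ^ 2) : ℝ) : ℂ)) ^ k) := by
  have ha0 : (4 * a : ℤ) ≠ 0 := by omega
  have hsplit : ((b : ℤ) + 2 * a * l) ^ 2 - N * n = b ^ 2 - N * n + 4 * a * (a * l ^ 2 + b * l) := by
    ring
  unfold Qt ep
  simp only
  by_cases h : (4 * a : ℤ) ∣ b ^ 2 - N * n
  · obtain ⟨c, hc⟩ := h
    have h1 : (((b : ℤ) + 2 * a * l) ^ 2 - N * n) / (4 * a) = a * l ^ 2 + b * l + c := by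
      rw [hsplit, hc, ← mul_add, Int.mul_ediv_cancel_left _ ha0]; ring
    have h2 : ((b : ℤ) ^ 2 - N * n) / (4 * a) = c := by
      rw [hc, Int.mul_ediv_cancel_left _ ha0]
    rw [h1, h2, if_pos (by linear_combination hc), if_pos ⟨c, hc⟩, hC.tr N a b c l hN,
      div_mul_div_comm, mul_one, ← mul_pow]
    congr 2
    have h3 : (a : ℂ) ≠ 0 := by exact_mod_cast (by omega : a ≠ 0)
    have h4 : (b : ℂ) ^ 2 - N * n = 4 * a * c := by exact_mod_cast hc
    push_cast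
    field_simp
    linear_combination (-4) * h4
  · rw [if_neg h, if_neg, zero_div, zero_mul]
    intro h1
    refine h ?_
    have h2 : (4 * a : ℤ) ∣ (b + 2 * a * l) ^ 2 - N * n :=
      ⟨((b + 2 * a * l) ^ 2 - N * n) / (4 * a), by linear_combination h1⟩
    rw [hsplit] at h2
    exact (dvd_add_left (dvd_mul_right _ _)).1 h2

theorem sum_Qt (hC : RowCHI) (N k a n : ℕ) (hN : Odd N) (ha : 1 ≤ a) (z : ℂ)
    (hs : Summable fun q => ‖Qt N k n z q‖) :
    ∑' p : ℤ × ℤ, Qt N k n z (a, p) = ∑ b ∈ Finset.range (2 * a), ep N a n b / a ^ k *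
      ∑' l : ℤ, 1 / ((z + b / (2 * a) + l) ^ 2 - ((N * n / (4 * a ^ 2) : ℝ) : ℂ)) ^ k := by
  let g : Fin (2 * a) × ℤ → ℤ × ℤ := fun x =>
    (((x.1 : ℕ) : ℤ) + 2 * a * x.2, ((((x.1 : ℕ) : ℤ) + 2 * a * x.2) ^ 2 - N * n) / (4 * a))
  have ha0 : (0 : ℤ) < 2 * a := by omega
  have hg : Function.Injective g := by
    rintro ⟨b, l⟩ ⟨b', l'⟩ h
    have h1 : ((b : ℕ) : ℤ) + 2 * a * l = ((b' : ℕ) : ℤ) + 2 * a * l' := congrArg Prod.fst h
    have hb : ((b : ℕ) : ℤ) < 2 * a := by exact_mod_cast b.2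
    have hb' : ((b' : ℕ) : ℤ) < 2 * a := by exact_mod_cast b'.2
    have h2 := congrArg (fun x => x % (2 * (a : ℤ))) h1
    simp only [Int.add_mul_emod_self_left] at h2
    rw [Int.emod_eq_of_lt (by positivity) hb, Int.emod_eq_of_lt (by positivity) hb'] at h2
    rw [h2, add_right_inj] at h1
    exact Prod.ext (Fin.ext (by exact_mod_cast h2)) (mul_left_cancel₀ ha0.ne' h1)
  have hsup : Function.support (fun p : ℤ × ℤ => Qt N k n z (a, p)) ⊆ Set.range g := by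
    rintro ⟨b, c⟩ h
    have h1 : b ^ 2 - 4 * a * c = N * n := by
      by_contra h2
      exact h (if_neg h2)
    have h2 := Int.emod_nonneg b ha0.ne'
    have h3 := Int.emod_lt_of_pos b ha0
    have h4 : (((b % (2 * a)).toNat : ℕ) : ℤ) + 2 * a * (b / (2 * a)) = b := by
      rw [Int.toNat_of_nonneg h2]; exact Int.emod_add_mul_ediv b (2 * a)
    refine ⟨(⟨(b % (2 * a)).toNat, by omega⟩, b / (2 * a)), ?_⟩
    simp only [g]
    rw [h4, show b ^ 2 - N * n = 4 * a * c by linear_combination h1,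
      Int.mul_ediv_cancel_left _ (by omega)]
  have hs2 : Summable fun x => Qt N k n z (a, g x) :=
    (hs.comp_injective (i := fun x => ((a : ℤ), g x)) fun x y h => hg (congrArg Prod.snd h)).of_norm
  rw [← hg.tsum_eq hsup, hs2.tsum_prod, tsum_fintype, Finset.sum_range]
  refine Finset.sum_congr rfl fun b _ => ?_
  rw [← tsum_mul_left]
  exact tsum_congr fun l => Qt_eq hC N k a n hN ha z b l

theorem rowCB : OfCB := by
  intro hJ hC hL hA N k n hN hn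
  obtain ⟨k, rfl⟩ : ∃ k', k = k' + 1 := ⟨k - 1, by have := hN.1; omega⟩
  have hk : 5 ≤ k := by have := hN.1; omega
  have hodd : Odd N := by
    have := hN.2.2
    rw [Nat.odd_iff]; omega
  refine ⟨N * n + 1, by positivity, fun z hz => ?_⟩
  have hD : (0 : ℝ) ≤ N * n := by positivity
  have hy : 0 < z.im := by linarith
  have hρ : (N * n : ℝ) / z.im ^ 2 < 1 := by
    rw [div_lt_one (by positivity)]
    nlinarith
  set K : ℝ := 1 / (1 - (N * n : ℝ) / z.im ^ 2) ^ (k + 1) * (2 * π * (2 / z.im) ^ (2 * k + 1))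
    with hK
  have hK0 : 0 ≤ K := by
    have : 0 < 1 - (N * n : ℝ) / z.im ^ 2 := by linarith
    positivity
  have hgeo := hasSum_geometric_of_lt_one (Real.exp_pos _).le (exp_lt hy)
  refine ⟨2 * K * (1 - Real.exp (-(π * z.im)))⁻¹, fun a ha => ?_⟩
  have ha1 : (1 : ℝ) ≤ a := by exact_mod_cast ha
  have hβ : (0 : ℝ) ≤ N * n / (4 * a ^ 2) := by positivity
  have hβρ : 4 * (N * n / (4 * a ^ 2) : ℝ) / z.im ^ 2 ≤ N * n / z.im ^ 2 := by
    have h1 : 4 * (N * n / (4 * a ^ 2) : ℝ) = N * n / a ^ 2 := by field_simp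
    rw [h1]
    gcongr
    exact div_le_self hD (one_le_pow₀ ha1)
  have hb : ∀ m : ℕ, ‖(m : ℂ) ^ (2 * (k + 1) - 1) * cA (k + 1) * St N (k + 1) a m n * E (m * z)‖ ≤
      2 * K / a ^ 2 * Real.exp (-(π * z.im)) ^ m := by
    intro m
    rw [term_eq N k a m n ha, norm_mul, norm_div, norm_pow, norm_natCast]
    have h1 : ‖Sa N a m n‖ / (a : ℝ) ^ (k + 1) ≤ 2 / a ^ 2 := by
      rw [div_le_div_iff₀ (by positivity) (by positivity)]
      have h2 : (a : ℝ) ^ 3 ≤ a ^ (k + 1) := pow_le_pow_right₀ ha1 (by omega)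
      have h3 := mul_le_mul_of_nonneg_right (norm_Sa hJ hC N a m n) (sq_nonneg (a : ℝ))
      nlinarith
    refine (mul_le_mul h1 (norm_cc hJ hL k hβ hy hβρ hρ m) (norm_nonneg _) (by positivity)).trans
      (le_of_eq ?_)
    rw [hK]
    ring
  have hs := Summable.of_nonneg_of_le (fun m => norm_nonneg _) hb (hgeo.mul_left _).summable
  refine ⟨hs, (hs.tsum_le_tsum hb (hgeo.mul_left _).summable).trans (le_of_eq ?_), ?_⟩
  · rw [(hgeo.mul_left _).tsum_eq]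
    ring
  · have him : ∀ b : ℕ, (z + b / (2 * a)).im = z.im := by
      intro b
      have : (b : ℂ) / (2 * a) = ((b / (2 * a) : ℝ) : ℂ) := by push_cast; ring
      rw [this, add_im, ofReal_im, add_zero]
    rw [sum_Qt hC N (k + 1) a n hodd ha z ((hA N (k + 1) n hN hn).1 z hy)]
    have h1 : ∀ b ∈ Finset.range (2 * a), ep N a n b / (a : ℂ) ^ (k + 1) *
        ∑' l : ℤ, 1 / ((z + b / (2 * a) + l) ^ 2 - ((N * n / (4 * a ^ 2) : ℝ) : ℂ)) ^ (k + 1) =
        ∑' m : ℕ, ep N a n b / (a : ℂ) ^ (k + 1) *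
          (cc k (N * n / (4 * a ^ 2)) m * E (m * (z + b / (2 * a)))) := by
      intro b _
      rw [core hJ hL k hβ (by rwa [him]) (by rw [him]; exact hβρ.trans_lt hρ), tsum_mul_left]
    rw [Finset.sum_congr rfl h1, ← Summable.tsum_finsetSum fun b _ =>
      (summable_cc hJ hL k hβ (by rwa [him]) (by rw [him]; exact hβρ.trans_lt hρ)).mul_left _]
    refine tsum_congr fun m => ?_
    rw [term_eq N k a m n ha, Sa_eq, Finset.sum_div, Finset.sum_mul]
    refine Finset.sum_congr rfl fun b _ => ?_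
    rw [mul_add, hJ.add, mul_div_assoc (m : ℂ)]
    ring

end

end Pool.Agent.MP_5f72fe_nt.H4
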